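import Mathlib
import Pool.Agent.Work.MP_db9399_lt.Interface

/-!
# MP_db9399, THEOREM LT, common facts (helper52)
-/

set_option autoImplicit false

namespace Pool.Agent.Work.MP_db9399_lt.helper52

open Finset Classical
open Pool.Agent.Work.MP_db9399_all (nb)
open Pool.Agent.Work.MP_db9399_nc (nn PEC Mts)

universe u

/-- a finite set with a fixed point free involution is even -/
theorem even_of_invol {V : Type u} (S : Finset V) (m : V → V)
    (h1 : ∀ v ∈ S, m v ∈ S) (h2 : ∀ v ∈ S, m (m v) = v) (h3 : ∀ v ∈ S, m v ≠ v) :
    Even S.card := by
  have h : ∑ _v ∈ S, (1 : ZMod 2) = 0 := by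
    refine Finset.sum_involution (fun v _ => m v) ?_ ?_ ?_ ?_
    · intro v _
      decide
    · intro v hv _
      exact h3 v hv
    · intro v hv
      exact h1 v hv
    · intro v hv
      exact h2 v hv
  rw [sum_const, nsmul_eq_mul, mul_one] at h
  exact (ZMod.natCast_eq_zero_iff_even).mp h

/-- the support of a matching is even -/
theorem even_supp {V : Type u} [Fintype V] (m : V → V) (hm : ∀ v, m (m v) = v) :
    Even (univ.filter (fun v => m v ≠ v)).card := by
  apply even_of_invol _ m
  · intro v hv
    simp only [mem_filter, mem_univ, true_and] at hv ⊢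
    rw [hm]
    exact fun h => hv h.symm
  · intro v _
    exact hm v
  · intro v hv
    exact (mem_filter.mp hv).2

theorem nn_add_nb' {V : Type u} [Fintype V] (G : SimpleGraph V) (v : V) :
    (nn G univ v).card + (nb G v).card + 1 = Fintype.card V := by
  have h1 : (univ.filter (fun w => G.Adj v w)).card + (univ.filter (fun w => ¬ G.Adj v w)).card =
      Fintype.card V := by
    rw [Finset.card_filter_add_card_filter_not]
    rfl
  have h2 : univ.filter (fun w => ¬ G.Adj v w) = insert v (nn G univ v) := by
    ext w
    simp only [nn, mem_filter, mem_univ, true_and, mem_insert]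
    constructor
    · intro h
      by_cases hw : w = v
      · exact Or.inl hw
      · exact Or.inr ⟨hw, h⟩
    · rintro (h | h)
      · subst h
        exact G.loopless.irrefl w
      · exact h.2
  have h3 : v ∉ nn G univ v := by simp [nn]
  rw [h2, card_insert_of_notMem h3] at h1
  unfold nb
  omega

theorem pt_card {V : Type u} [Fintype V] (p : V → Fin 3) (a : V → Bool) (i : Fin 3) :
    (pt p i).card = (cell p a i false).card + (cell p a i true).card := by
  have h1 : pt p i = cell p a i false ∪ cell p a i true := by
    ext v
    simp only [pt, cell, mem_union, mem_filter, mem_univ, true_and]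
    cases a v <;> simp
  have h2 : Disjoint (cell p a i false) (cell p a i true) := by
    rw [disjoint_left]
    intro v hv hw
    simp only [cell, mem_filter, mem_univ, true_and] at hv hw
    rw [hv.2] at hw
    exact absurd hw.2 (by simp)
  rw [h1, card_union_of_disjoint h2]

/-- the parity of the number of vertices without the colour `b` of the last stage -/
theorem odd_free {V : Type u} [Fintype V] {F : V → Finset ℕ} {p : V → Fin 3}
    {C : Fin 3 → Finset ℕ} {M : ℕ → V → V} (hcv : CV F p C M)
    (hCF : ∀ v, Disjoint (F v) (C (p v))) {i : Fin 3} {b : ℕ} (hb : b ∈ C i)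
    (hinv : ∀ v, M b (M b v) = v) :
    (univ \ us F b).card % 2 =
      ((pt p i).card + (if ∃ v, p v = i ∧ M b v ≠ v then 1 else 0)) % 2 := by
  have h1 : univ \ us F b = pt p i ∪ (univ.filter (fun v => p v ≠ i ∧ M b v ≠ v)) := by
    ext v
    simp only [us, pt, mem_sdiff, mem_univ, true_and, mem_filter, mem_union]
    constructor
    · intro h
      by_cases hv : p v = i
      · exact Or.inl hv
      · refine Or.inr ⟨hv, ?_⟩
        intro h2
        exact h ((hcv.cov i b hb v hv).mp h2)
    · rintro (h | h)
      · intro h2
        have h3 := hCF v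
        rw [h] at h3
        exact (disjoint_left.mp h3) h2 hb
      · intro h2
        exact h.2 ((hcv.cov i b hb v h.1).mpr h2)
  have h2 : Disjoint (pt p i) (univ.filter (fun v => p v ≠ i ∧ M b v ≠ v)) := by
    rw [disjoint_left]
    intro v hv hw
    simp only [pt, mem_filter, mem_univ, true_and] at hv hw
    exact hw.1 hv
  rw [h1, card_union_of_disjoint h2]
  have h3 : (univ.filter (fun v => p v = i ∧ M b v ≠ v)).card =
      (if ∃ v, p v = i ∧ M b v ≠ v then 1 else 0) := by
    split_ifs with h
    · obtain ⟨v, hv⟩ := h
      rw [card_eq_one]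
      refine ⟨v, ?_⟩
      ext w
      simp only [mem_filter, mem_univ, true_and, mem_singleton]
      constructor
      · intro hw
        exact hcv.one i b hb w v hw.1 hv.1 hw.2 hv.2
      · rintro rfl
        exact hv
    · rw [card_eq_zero, filter_eq_empty_iff]
      intro v _ hv
      exact h ⟨v, hv⟩
  have h4 : (univ.filter (fun v => p v ≠ i ∧ M b v ≠ v)).card +
      (univ.filter (fun v => p v = i ∧ M b v ≠ v)).card =
      (univ.filter (fun v => M b v ≠ v)).card := by
    rw [← card_union_of_disjoint]
    · congr 1
      ext v
      simp only [mem_filter, mem_univ, true_and, mem_union]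
      by_cases h : p v = i <;> simp [h]
    · rw [disjoint_left]
      intro v hv hw
      simp only [mem_filter, mem_univ, true_and] at hv hw
      exact hv.1 hw.1
  have h5 := even_supp (M b) hinv
  rw [h3] at h4
  rw [← h4] at h5
  obtain ⟨r, hr⟩ := h5
  omega

end Pool.Agent.Work.MP_db9399_lt.helper52
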