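import Mathlib
import Pool.Agent.Work.MP_db9399_lt.Interface

/-!
# MP_db9399, THEOREM LT, block DRA (helper52)
-/

set_option autoImplicit false

namespace Pool.Agent.Work.MP_db9399_lt.helper52

open Finset Classical
open Pool.Agent.Work.MP_db9399_all (nb)
open Pool.Agent.Work.MP_db9399_nc (nn PEC Mts)

universe u

/-- the edges of `G` between the sides -/
def rs {V : Type u} (G : SimpleGraph V) (sd : V → Bool) : SimpleGraph V where
  Adj v w := G.Adj v w ∧ sd v ≠ sd w
  symm := ⟨fun _ _ hh => ⟨hh.1.symm, hh.2.symm⟩⟩
  loopless := ⟨fun _ hh => hh.2 rfl⟩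

theorem nn_add_nb {V : Type u} [Fintype V] (G : SimpleGraph V) (v : V) :
    (nn G univ v).card + (nb G v).card + 1 = Fintype.card V := by
  have h1 : (univ.filter (fun w => G.Adj v w)).card + (univ.filter (fun w => ¬ G.Adj v w)).card =
      Fintype.card V := by
    rw [Finset.card_filter_add_card_filter_not]
    rfl
  have h2 : univ.filter (fun w => ¬ G.Adj v w) = insert v (nn G univ v) := by
    ext w
    simp only [nn, mem_filter, mem_univ, true_and, mem_insert]
    constructor
    · intro h
      by_cases hw : w = v
      · exact Or.inl hw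
      · exact Or.inr ⟨hw, h⟩
    · rintro (h | h)
      · subst h
        exact G.loopless.irrefl w
      · exact h.2
  have h3 : v ∉ nn G univ v := by simp [nn]
  rw [h2, card_insert_of_notMem h3] at h1
  unfold nb
  omega

theorem side_card {V : Type u} [Fintype V] {p : ℕ} {sd : V → Bool} {tw : V → V} {l : V → ℕ}
    (h : Tw p sd tw l) (β : Bool) : (univ.filter (fun v => sd v = β)).card = p := by
  have : (univ.filter (fun v => sd v = β)).image l = range p := by
    ext i
    simp only [mem_image, mem_filter, mem_univ, true_and, mem_range]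
    constructor
    · rintro ⟨v, _, rfl⟩
      exact h.lt v
    · intro hi
      obtain ⟨v, hv, hl⟩ := h.sur β i hi
      exact ⟨v, hv, hl⟩
  have h2 : Set.InjOn l ((univ.filter (fun v => sd v = β) : Finset V) : Set V) := by
    intro v hv w hw hvw
    simp only [coe_filter, mem_univ, true_and, Set.mem_ofPred_eq] at hv hw
    exact h.inj v w (hv.trans hw.symm) hvw
  rw [← card_image_of_injOn h2, this, card_range]

theorem stmt_DRA (hT : Stmt_TWIN.{u}) (hN : Stmt_DRN.{u}) (hS : Stmt_SWITCH.{u}) :
    Stmt_DRA.{u} := by
  intro V _ G κ p n Cl hV hdeg hκ hp hCl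
  obtain ⟨sd, tw, l, htw⟩ := hT (V := V) p hV
  have hnn : ∀ v, (nn G univ v).card ≤ n := by
    intro v
    have h1 := nn_add_nb G v
    have h2 := hdeg v
    omega
  have hside : ∀ β : Bool, (univ.filter (fun v => sd v = β)).card = p := side_card htw
  have hbal : Bal p sd := ⟨hside true, hside false⟩
  have hpCl : p ≤ Cl.card := by omega
  obtain ⟨E0, hE0, hE0c⟩ := exists_subset_card_eq hpCl
  obtain ⟨N, hNM, hNs, hNc, hNa⟩ := hN G p n sd tw l E0 htw hnn hE0c
  have hNinj : ∀ b ∈ E0, Function.Injective (N b) := by
    intro b hb v w hvw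
    have := congrArg (N b) hvw
    rwa [hNM.inv b hb, hNM.inv b hb] at this
  -- the uncovered vertices
  have hDsum : ∑ b ∈ E0, (univ.filter (fun v => N b v = v)).card ≤ 2 * p * (2 * n + 1) := by
    have h1 : ∑ b ∈ E0, (univ.filter (fun v => N b v = v)).card =
        ∑ v : V, (E0.filter (fun b => N b v = v)).card := by
      simp only [card_filter]
      exact sum_comm
    rw [h1]
    calc ∑ v : V, (E0.filter (fun b => N b v = v)).card ≤ ∑ _v : V, (2 * n + 1) :=
          sum_le_sum (fun v _ => hNc v)
      _ = 2 * p * (2 * n + 1) := by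
          rw [sum_const, card_univ, hV, smul_eq_mul]
  set bad : Finset ℕ := E0.filter (fun b => p < 1000 * (univ.filter (fun v => N b v = v)).card)
    with hbad
  have hp0 : 0 < p := by omega
  have hbadc : bad.card ≤ 2000 * (2 * n + 1) := by
    have h1 : bad.card * p ≤ 1000 * (2 * p * (2 * n + 1)) := by
      calc bad.card * p = ∑ _b ∈ bad, p := by rw [sum_const, smul_eq_mul]
        _ ≤ ∑ b ∈ bad, 1000 * (univ.filter (fun v => N b v = v)).card := by
            apply sum_le_sum
            intro b hb
            exact (mem_filter.mp hb).2.le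
        _ = 1000 * ∑ b ∈ bad, (univ.filter (fun v => N b v = v)).card := by rw [mul_sum]
        _ ≤ 1000 * ∑ b ∈ E0, (univ.filter (fun v => N b v = v)).card := by
            apply Nat.mul_le_mul_left
            exact sum_le_sum_of_subset (filter_subset _ _)
        _ ≤ 1000 * (2 * p * (2 * n + 1)) := Nat.mul_le_mul_left _ hDsum
    have h2 : bad.card * p ≤ 2000 * (2 * n + 1) * p := by
      calc bad.card * p ≤ 1000 * (2 * p * (2 * n + 1)) := h1
        _ = 2000 * (2 * n + 1) * p := by ring
    exact Nat.le_of_mul_le_mul_right h2 hp0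
  set E : Finset ℕ := E0 \ bad with hE
  have hEE0 : E ⊆ E0 := sdiff_subset
  have hNME : Mts G E N := ⟨fun b hb => hNM.inv b (hEE0 hb), fun b hb => hNM.adj b (hEE0 hb),
    fun b hb b' hb' => hNM.dis b (hEE0 hb) b' (hEE0 hb')⟩
  have hD : ∀ b ∈ E, 1000 * (univ.filter (fun v => N b v = v)).card ≤ p := by
    intro b hb
    rw [hE, mem_sdiff, hbad, mem_filter, not_and, not_lt] at hb
    exact hb.2 hb.1
  set P : ℕ → V → V := fun b v => if N b v = v then tw v else v with hP
  have htwne : ∀ v, tw v ≠ v := by
    intro v h
    have := htw.ts v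
    rw [h] at this
    cases hs : sd v <;> rw [hs] at this <;> simp at this
  have hPne : ∀ b v, P b v ≠ v ↔ N b v = v := by
    intro b v
    simp only [hP]
    split_ifs with h
    · simp [h, htwne v]
    · simp [h]
  have hPeq : ∀ b v, N b v = v → P b v = tw v := by
    intro b v h
    simp only [hP, if_pos h]
  have hres : rs G sd ≤ G := fun v w h => h.1
  set L : ℕ := p / 10000 with hL
  have hL1 : 10000 * L ≤ p := by omega
  have hL2 : p ≤ 20000 * L := by omega
  have hu : ∀ b ∈ E, (univ.filter (fun v => P b v ≠ v)).card ≤ p / 1000 := by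
    intro b hb
    have h1 : (univ.filter (fun v => P b v ≠ v)).card =
        (univ.filter (fun v => N b v = v)).card := by
      congr 1
      apply filter_congr
      intro v _
      exact hPne b v
    have := hD b hb
    omega
  have hsumP : 2 * ∑ b ∈ E, (univ.filter (fun v => P b v ≠ v)).card ≤
      L * (80000 * (2 * n + 1)) := by
    have h1 : ∑ b ∈ E, (univ.filter (fun v => P b v ≠ v)).card ≤ 2 * p * (2 * n + 1) := by
      calc ∑ b ∈ E, (univ.filter (fun v => P b v ≠ v)).card
          = ∑ b ∈ E, (univ.filter (fun v => N b v = v)).card := by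
            apply sum_congr rfl
            intro b _
            congr 1
            apply filter_congr
            intro v _
            exact hPne b v
        _ ≤ ∑ b ∈ E0, (univ.filter (fun v => N b v = v)).card := sum_le_sum_of_subset hEE0
        _ ≤ _ := hDsum
    calc 2 * ∑ b ∈ E, (univ.filter (fun v => P b v ≠ v)).card ≤ 2 * (2 * p * (2 * n + 1)) :=
          Nat.mul_le_mul_left _ h1
      _ = p * (4 * (2 * n + 1)) := by ring
      _ ≤ 20000 * L * (4 * (2 * n + 1)) := Nat.mul_le_mul_right _ hL2
      _ = L * (80000 * (2 * n + 1)) := by ring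
  obtain ⟨M, hMM, hMv, hMr, hMl⟩ := hS G (rs G sd) E N P (fun _ v w => sd v = sd w) (p / 1000)
    (2 * n + 1) L (80000 * (2 * n + 1)) (p / 2) hNME hres
    (by
      intro b hb v _ h
      exact h.2 (hNs b (hEE0 hb) v).1.symm)
    (by
      intro b hb v
      by_cases h : N b v = v
      · rw [hPeq b v h]
        have h2 : N b (tw v) = tw v := by rw [(hNs b (hEE0 hb) v).2, h]
        rw [hPeq b _ h2, htw.tt]
      · have : P b v = v := by simp only [hP, if_neg h]
        rw [this, this])
    (by
      intro b _ v h
      exact (hPne b v).mp h)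
    hu
    (by
      intro v
      refine le_trans (card_le_card ?_) (hNc v)
      intro b hb
      rw [mem_filter] at hb ⊢
      exact ⟨hEE0 hb.1, (hPne b v).mp hb.2⟩)
    (by omega)
    hsumP
    (by omega)
    (by
      intro b hb v w _ _ hT'
      -- all `a` of the other side
      have hsub : (univ.filter (fun a => sd a = !(sd v))) ⊆
          (univ.filter (fun a => N b a ≠ a ∧ (rs G sd).Adj v a ∧ (rs G sd).Adj (N b a) w)) ∪
          ((univ.filter (fun a => N b a = a)) ∪ (nn G univ v ∪
            (nn G univ w).image (N b))) := by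
        intro a ha
        rw [mem_filter] at ha
        have hsa : sd v ≠ sd a := by
          rw [ha.2]
          cases sd v <;> simp
        have hva : v ≠ a := fun h => hsa (by rw [h])
        have hsN : sd (N b a) = sd a := (hNs b (hEE0 hb) a).1
        have hwN : N b a ≠ w := by
          intro h
          rw [h] at hsN
          exact hsa (hT'.trans hsN)
        simp only [mem_union, mem_filter, mem_univ, true_and, mem_image, nn]
        by_cases h1 : N b a = a
        · exact Or.inr (Or.inl h1)
        by_cases h2 : G.Adj v a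
        · by_cases h3 : G.Adj (N b a) w
          · refine Or.inl ⟨h1, ⟨h2, hsa⟩, h3, ?_⟩
            rw [hsN]
            exact fun h => hsa (hT'.trans h.symm)
          · exact Or.inr (Or.inr (Or.inr ⟨N b a, ⟨hwN, fun h => h3 h.symm⟩,
              hNM.inv b (hEE0 hb) a⟩))
        · exact Or.inr (Or.inr (Or.inl ⟨hva.symm, h2⟩))
      have h1 := card_le_card hsub
      rw [hside] at h1
      have h2 := card_union_le
        (univ.filter (fun a => N b a ≠ a ∧ (rs G sd).Adj v a ∧ (rs G sd).Adj (N b a) w))
        ((univ.filter (fun a => N b a = a)) ∪ (nn G univ v ∪ (nn G univ w).image (N b)))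
      have h3 := card_union_le (univ.filter (fun a => N b a = a))
        (nn G univ v ∪ (nn G univ w).image (N b))
      have h4 := card_union_le (nn G univ v) ((nn G univ w).image (N b))
      have h5 : ((nn G univ w).image (N b)).card ≤ (nn G univ w).card := card_image_le
      have h6 := hnn v
      have h7 := hnn w
      have h8 := hD b hb
      omega)
    (by
      intro b hb v hPv hT'
      have hNv : N b v = v := (hPne b v).mp hPv
      rw [hPeq b v hNv]
      suffices hgoal : p / 2 ≤ (univ.filter (fun c => N b c ≠ c ∧ (rs G sd).Adj (tw v) c ∧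
          sd v = sd (N b c))).card by
        convert hgoal
      have hts := htw.ts v
      have hsub : (univ.filter (fun a => sd a = sd v)) ⊆
          (univ.filter (fun c => N b c ≠ c ∧ (rs G sd).Adj (tw v) c ∧ sd v = sd (N b c))) ∪
          ((univ.filter (fun a => N b a = a)) ∪ nn G univ (tw v)) := by
        intro a ha
        rw [mem_filter] at ha
        have hsa : sd (tw v) ≠ sd a := by
          rw [ha.2, hts]
          cases sd v <;> simp
        have hva : tw v ≠ a := fun h => hsa (by rw [h])
        have hsN : sd (N b a) = sd a := (hNs b (hEE0 hb) a).1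
        simp only [mem_union, mem_filter, mem_univ, true_and, nn]
        by_cases h1 : N b a = a
        · exact Or.inr (Or.inl h1)
        by_cases h2 : G.Adj (tw v) a
        · exact Or.inl ⟨h1, ⟨h2, hsa⟩, by rw [hsN, ha.2]⟩
        · exact Or.inr (Or.inr ⟨hva.symm, h2⟩)
      have h1 := card_le_card hsub
      rw [hside] at h1
      have h2 := card_union_le
        (univ.filter (fun c => N b c ≠ c ∧ (rs G sd).Adj (tw v) c ∧ sd v = sd (N b c)))
        ((univ.filter (fun a => N b a = a)) ∪ nn G univ (tw v))
      have h3 := card_union_le (univ.filter (fun a => N b a = a)) (nn G univ (tw v))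
      have h6 := hnn (tw v)
      have h8 := hD b hb
      omega)
  have hMne : ∀ b ∈ E, ∀ v, M b v ≠ v := by
    intro b hb v h
    have h1 := (hMv b hb v).mp h
    exact (hPne b v).mpr h1.1 h1.2
  refine ⟨sd, E, M, hbal, hEE0.trans hE0, ?_, hMM, hMne, ?_, ?_⟩
  · calc E.card ≤ E0.card := card_le_card hEE0
      _ = p := hE0c
  · intro v
    have hsub : (univ.filter (fun w => G.Adj v w ∧ sd v = sd w ∧ ∀ b ∈ E, M b v ≠ w)) ⊆
        (nn G univ (tw v)).image tw ∪ (bad.image (fun b => N b v) ∪
          (E.filter (fun b => N b v ≠ v ∧ M b v ≠ N b v)).image (fun b => N b v)) := by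
      intro w hw
      rw [mem_filter] at hw
      obtain ⟨_, hvw, hsw, hcov⟩ := hw
      simp only [mem_union, mem_image]
      by_cases h1 : G.Adj (tw v) (tw w)
      · obtain ⟨b, hb, hbw⟩ := hNa v w hvw hsw h1
        by_cases hbb : b ∈ bad
        · exact Or.inr (Or.inl ⟨b, hbb, hbw⟩)
        · have hbE : b ∈ E := by
            rw [hE, mem_sdiff]
            exact ⟨hb, hbb⟩
          refine Or.inr (Or.inr ⟨b, ?_, hbw⟩)
          rw [mem_filter]
          refine ⟨hbE, ?_, ?_⟩
          · rw [hbw]
            exact hvw.ne'
          · rw [hbw]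
            exact hcov b hbE
      · refine Or.inl ⟨tw w, ?_, htw.tt w⟩
        simp only [nn, mem_filter, mem_univ, true_and]
        refine ⟨?_, h1⟩
        intro h
        have := congrArg tw h
        rw [htw.tt, htw.tt] at this
        exact hvw.ne this.symm
    have h1 := card_le_card hsub
    have h2 := card_union_le ((nn G univ (tw v)).image tw) (bad.image (fun b => N b v) ∪
          (E.filter (fun b => N b v ≠ v ∧ M b v ≠ N b v)).image (fun b => N b v))
    have h3 := card_union_le (bad.image (fun b => N b v))
      ((E.filter (fun b => N b v ≠ v ∧ M b v ≠ N b v)).image (fun b => N b v))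
    have h4 : ((nn G univ (tw v)).image tw).card ≤ (nn G univ (tw v)).card := card_image_le
    have h5 : (bad.image (fun b => N b v)).card ≤ bad.card := card_image_le
    have h6 : ((E.filter (fun b => N b v ≠ v ∧ M b v ≠ N b v)).image (fun b => N b v)).card ≤
      (E.filter (fun b => N b v ≠ v ∧ M b v ≠ N b v)).card := card_image_le
    have h7 := hMl v
    have h8 := hnn (tw v)
    omega
  · intro v
    have hsub : (E.filter (fun b => sd (M b v) ≠ sd v)) ⊆
        (E0.filter (fun b => N b v = v)) ∪
        (E.filter (fun b => N b v ≠ v ∧ M b v ≠ N b v)) := by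
      intro b hb
      rw [mem_filter] at hb
      rw [mem_union, mem_filter, mem_filter]
      by_cases h : N b v = v
      · exact Or.inl ⟨hEE0 hb.1, h⟩
      · refine Or.inr ⟨hb.1, h, ?_⟩
        intro h2
        apply hb.2
        rw [h2]
        exact (hNs b (hEE0 hb.1) v).1
    have h1 := card_le_card hsub
    have h2 := card_union_le (E0.filter (fun b => N b v = v))
        (E.filter (fun b => N b v ≠ v ∧ M b v ≠ N b v))
    have h3 := hMl v
    have h4 := hNc v
    omega

end Pool.Agent.Work.MP_db9399_lt.helper52
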