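import Mathlib
import Pool.Agent.Work.MP_db9399_lt.Interface
import Pool.Agent.Work.MP_db9399_lt_helper52.Common

/-!
# MP_db9399, THEOREM LT, block LST (helper52)
-/

set_option autoImplicit false

namespace Pool.Agent.Work.MP_db9399_lt.helper52

open Finset Classical
open Pool.Agent.Work.MP_db9399_all (nb)
open Pool.Agent.Work.MP_db9399_nc (nn PEC Mts)

universe u

/-- inner edges of the part `i` without a colour -/
def ig {V : Type u} (G : SimpleGraph V) (d : ℕ) (p : V → Fin 3) (M : ℕ → V → V) (i : Fin 3) :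
    SimpleGraph V where
  Adj v w := G.Adj v w ∧ p v = i ∧ p w = i ∧ ∀ b ∈ range (d + 2), M b v ≠ w ∧ M b w ≠ v
  symm := ⟨fun _ _ hh => ⟨hh.1.symm, hh.2.2.1, hh.2.1, fun b hb =>
    ⟨(hh.2.2.2 b hb).2, (hh.2.2.2 b hb).1⟩⟩⟩
  loopless := ⟨fun v hh => G.loopless.irrefl v hh.1⟩

theorem lst_deg {V : Type u} [Fintype V] (G : SimpleGraph V) (d x y h s : ℕ)
    (F : V → Finset ℕ) (p : V → Fin 3) (a : V → Bool) (C0 C : Fin 3 → Finset ℕ)
    (Q1 Q2 : Finset ℕ) (su sv e1 e2 : ℕ → V) (N M : ℕ → V → V) (τ : ℕ → Fin 3 → Prop)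
    (X : ℕ → Finset V) (hL : LTH G d x y h s F p a C0)
    (hP : PRE G d x h s F p C Q1 Q2 su sv e1 e2 N) (hX : XS F p (Q1 ∪ Q2) τ X)
    (hR : RND G d h F p C X M) (i : Fin 3) (v : V) (hv : p v = i) :
    (nb (ig G d p M i) v).card + (if ∃ b ∈ C i, M b v ≠ v then 1 else 0) + 1 =
      (C i).card + (if ∃ b ∈ Q1 ∪ Q2, v ∈ X b then 1 else 0) := by
  have htot : ∀ b, b ∈ range (d + 2) ↔ b ∈ cc C ∨ b ∈ Q1 ∪ Q2 := by
    intro b
    rw [← hP.tot, union_assoc, mem_union]
  have hCcc : ∀ j, ∀ b ∈ C j, b ∈ cc C := by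
    intro j b hb
    unfold cc
    simp only [mem_union]
    fin_cases j
    · exact Or.inl (Or.inl hb)
    · exact Or.inl (Or.inr hb)
    · exact Or.inr hb
  have hccC : ∀ b ∈ cc C, ∃ j, b ∈ C j := by
    intro b hb
    unfold cc at hb
    simp only [mem_union] at hb
    rcases hb with (hb | hb) | hb
    · exact ⟨0, hb⟩
    · exact ⟨1, hb⟩
    · exact ⟨2, hb⟩
  have hQC : ∀ b ∈ Q1 ∪ Q2, ∀ j, b ∉ C j := by
    intro b hb j hj
    rw [mem_union] at hb
    rcases hb with hb | hb
    · exact disjoint_left.mp (hP.dC1 j) hj hb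
    · exact disjoint_left.mp (hP.dC2 j) hj hb
  have hQcc : ∀ b ∈ Q1 ∪ Q2, b ∉ cc C := by
    intro b hb hb2
    obtain ⟨j, hj⟩ := hccC b hb2
    exact hQC b hb j hj
  -- neighbours
  have e1 : (nb G v).card = (nb (ig G d p M i) v).card +
      ((range (d + 2)).filter (fun b => M b v ≠ v)).card := by
    have h1 : nb G v = nb (ig G d p M i) v ∪
        ((range (d + 2)).filter (fun b => M b v ≠ v)).image (fun b => M b v) := by
      ext w
      simp only [nb, mem_filter, mem_univ, true_and, mem_union, mem_image]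
      constructor
      · intro hw
        by_cases h : ∃ b ∈ range (d + 2), M b v = w
        · obtain ⟨b, hb, hbw⟩ := h
          exact Or.inr ⟨b, ⟨hb, by rw [hbw]; exact hw.ne'⟩, hbw⟩
        · refine Or.inl ⟨hw, hv, ?_, ?_⟩
          · by_contra hne
            exact h (hR.all v w hw (by rw [hv]; exact fun h2 => hne h2.symm))
          · intro b hb
            refine ⟨fun h2 => h ⟨b, hb, h2⟩, fun h2 => h ⟨b, hb, ?_⟩⟩
            have := congrArg (M b) h2
            rw [hR.mts.inv b hb] at this
            exact this.symm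
      · rintro (hw | ⟨b, ⟨hb, hbv⟩, rfl⟩)
        · exact hw.1
        · exact hR.mts.adj b hb v hbv
    have h2 : Disjoint (nb (ig G d p M i) v)
        (((range (d + 2)).filter (fun b => M b v ≠ v)).image (fun b => M b v)) := by
      rw [disjoint_left]
      intro w hw hw2
      simp only [nb, mem_filter, mem_univ, true_and] at hw
      simp only [mem_image, mem_filter] at hw2
      obtain ⟨b, ⟨hb, _⟩, hbw⟩ := hw2
      exact (hw.2.2.2 b hb).1 hbw
    rw [h1, card_union_of_disjoint h2, card_image_of_injOn]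
    intro b hb b' hb' hbb
    simp only [coe_filter, Set.mem_ofPred_eq] at hb hb'
    by_contra hne
    exact hR.mts.dis b hb.1 b' hb'.1 hne v hb.2 hbb
  have e2 : ((range (d + 2)).filter (fun b => M b v ≠ v)).card +
      ((range (d + 2)).filter (fun b => M b v = v)).card = d + 2 := by
    have h0 : ((range (d + 2)).filter (fun b => M b v = v)).card +
        ((range (d + 2)).filter (fun b => M b v ≠ v)).card = (range (d + 2)).card :=
      card_filter_add_card_filter_not _
    rw [card_range] at h0
    omega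
  have e3 : ((range (d + 2)).filter (fun b => M b v = v)).card +
      ((C i).filter (fun b => M b v ≠ v)).card = (F v).card + (C i).card +
      ((Q1 ∪ Q2).filter (fun b => v ∈ X b)).card := by
    have h1 : (range (d + 2)).filter (fun b => M b v = v) ∪
        (C i).filter (fun b => M b v ≠ v) = F v ∪ C i ∪ (Q1 ∪ Q2).filter (fun b => v ∈ X b) := by
      ext b
      simp only [mem_union (s := _ ∪ _), mem_union (t := (C i).filter _), mem_filter]
      constructor
      · rintro (⟨hb, hbv⟩ | ⟨hb, _⟩)
        · by_cases hi : b ∈ C i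
          · exact Or.inl (mem_union_right _ hi)
          · by_cases hcc : b ∈ cc C
            · obtain ⟨j, hj⟩ := hccC b hcc
              have hji : p v ≠ j := by
                rw [hv]
                rintro rfl
                exact hi hj
              exact Or.inl (mem_union_left _ ((hR.cv.cov j b hj v hji).mp hbv))
            · rcases (hR.cov b (mem_sdiff.mpr ⟨hb, hcc⟩) v).mp hbv with h2 | h2
              · exact Or.inl (mem_union_left _ h2)
              · rcases (htot b).mp hb with h3 | h3
                · exact absurd h3 hcc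
                · exact Or.inr ⟨h3, h2⟩
        · exact Or.inl (mem_union_right _ hb)
      · rintro (hb | ⟨hb, hbX⟩)
        · rcases mem_union.mp hb with hb | hb
          · have hbr : b ∈ range (d + 2) := mem_range.mpr (hL.Flt v b hb)
            left
            refine ⟨hbr, ?_⟩
            rcases (htot b).mp hbr with hcc | hq
            · obtain ⟨j, hj⟩ := hccC b hcc
              have hji : p v ≠ j := by
                rintro rfl
                exact disjoint_left.mp (hP.CF v) hb hj
              exact (hR.cv.cov j b hj v hji).mpr hb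
            · exact (hR.cov b (mem_sdiff.mpr ⟨hbr, hQcc b hq⟩) v).mpr (Or.inl hb)
          · by_cases hbv : M b v = v
            · exact Or.inl ⟨(htot b).mpr (Or.inl (hCcc i b hb)), hbv⟩
            · exact Or.inr ⟨hb, hbv⟩
        · have hbr : b ∈ range (d + 2) := (htot b).mpr (Or.inr (mem_union.mpr
            (mem_union.mp hb)))
          exact Or.inl ⟨hbr, (hR.cov b (mem_sdiff.mpr ⟨hbr, hQcc b hb⟩) v).mpr (Or.inr hbX)⟩
    have d1 : Disjoint ((range (d + 2)).filter (fun b => M b v = v))
        ((C i).filter (fun b => M b v ≠ v)) := by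
      rw [disjoint_left]
      intro b hb hb2
      exact (mem_filter.mp hb2).2 (mem_filter.mp hb).2
    have d2 : Disjoint (F v) (C i) := by
      have := hP.CF v
      rwa [hv] at this
    have d3 : Disjoint (F v ∪ C i) ((Q1 ∪ Q2).filter (fun b => v ∈ X b)) := by
      rw [disjoint_left]
      intro b hb hb2
      obtain ⟨hb2, hb3⟩ := mem_filter.mp hb2
      rcases mem_union.mp hb with hb | hb
      · exact hX.XF b hb2 v hb3 hb
      · exact hQC b hb2 i hb
    rw [← card_union_of_disjoint d1, h1, card_union_of_disjoint d3, card_union_of_disjoint d2]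
  have e4 : ((C i).filter (fun b => M b v ≠ v)).card =
      (if ∃ b ∈ C i, M b v ≠ v then 1 else 0) := by
    split_ifs with hh
    · obtain ⟨b, hb, hbv⟩ := hh
      rw [card_eq_one]
      refine ⟨b, ?_⟩
      ext b'
      simp only [mem_filter, mem_singleton]
      constructor
      · intro hb'
        exact hR.cv.sta i b' hb'.1 b hb v hv hb'.2 hbv
      · rintro rfl
        exact ⟨hb, hbv⟩
    · rw [card_eq_zero, filter_eq_empty_iff]
      intro b hb hbv
      exact hh ⟨b, hb, hbv⟩
  have e5 : ((Q1 ∪ Q2).filter (fun b => v ∈ X b)).card =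
      (if ∃ b ∈ Q1 ∪ Q2, v ∈ X b then 1 else 0) := by
    split_ifs with hh
    · obtain ⟨b, hb, hbv⟩ := hh
      rw [card_eq_one]
      refine ⟨b, ?_⟩
      ext b'
      simp only [mem_filter, mem_singleton]
      constructor
      · intro hb'
        by_contra hne
        exact disjoint_left.mp (hX.dis b' hb'.1 b hb hne) hb'.2 hbv
      · rintro rfl
        exact ⟨hb, hbv⟩
    · rw [card_eq_zero, filter_eq_empty_iff]
      intro b hb hbv
      exact hh ⟨b, hb, hbv⟩
  have e6 := hL.deg v
  omega

theorem lst_part (hF : Stmt_FINR.{u}) {V : Type u} [Fintype V] [Nonempty V]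
    (G : SimpleGraph V) (d x y h s : ℕ)
    (F : V → Finset ℕ) (p : V → Fin 3) (a : V → Bool) (C0 C : Fin 3 → Finset ℕ)
    (Q1 Q2 : Finset ℕ) (su sv e1 e2 : ℕ → V) (N M : ℕ → V → V) (τ : ℕ → Fin 3 → Prop)
    (X : ℕ → Finset V) (hL : LTH G d x y h s F p a C0)
    (hP : PRE G d x h s F p C Q1 Q2 su sv e1 e2 N) (hT : TG F p C (Q1 ∪ Q2) τ)
    (hX : XS F p (Q1 ∪ Q2) τ X)
    (hR : RND G d h F p C X M) (i : Fin 3) :
    ∃ t : V → V → ℕ, PEC (ig G d p M i) (C i) t ∧ ∀ b ∈ C i, ∀ v, p v = i → M b v ≠ v →
      ∀ w, (ig G d p M i).Adj v w → t v w ≠ b := by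
  set O : Finset ℕ := (C i).filter (fun b => ∃ v, p v = i ∧ M b v ≠ v) with hO
  obtain ⟨v0⟩ := ‹Nonempty V›
  set st : ℕ → V := fun b => if hb : ∃ v, p v = i ∧ M b v ≠ v then hb.choose else v0 with hst
  have hst1 : ∀ b ∈ O, p (st b) = i ∧ M b (st b) ≠ st b := by
    intro b hb
    have hb2 := (mem_filter.mp hb).2
    simp only [hst, dif_pos hb2]
    exact hb2.choose_spec
  have hst2 : ∀ b ∈ C i, ∀ v, p v = i → M b v ≠ v → b ∈ O ∧ st b = v := by
    intro b hb v hv hbv
    have hbO : b ∈ O := mem_filter.mpr ⟨hb, v, hv, hbv⟩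
    exact ⟨hbO, hR.cv.one i b hb (st b) v (hst1 b hbO).1 hv (hst1 b hbO).2 hbv⟩
  set W : Finset V := (pt p i).filter (fun v => ∃ b ∈ Q1 ∪ Q2, v ∈ X b) with hW
  have hpt : ∀ v, v ∈ pt p i ↔ p v = i := by
    intro v
    simp [pt]
  have hOC : O ⊆ C i := filter_subset _ _
  have hccR : ∀ j, C j ⊆ range (d + 2) := by
    intro j b hb
    rw [← hP.tot]
    have : b ∈ cc C := by
      unfold cc
      simp only [mem_union]
      fin_cases j
      · exact Or.inl (Or.inl hb)
      · exact Or.inl (Or.inr hb)
      · exact Or.inr hb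
    exact mem_union_left _ (mem_union_left _ this)
  have hWc : W.card = ((Q1 ∪ Q2).filter (fun b => τ b i)).card := by
    have h1 : W = (Q1 ∪ Q2).biUnion (fun b => (X b).filter (fun v => p v = i)) := by
      ext v
      simp only [hW, mem_filter, mem_biUnion, hpt]
      constructor
      · rintro ⟨hv, b, hb, hbX⟩
        exact ⟨b, hb, hbX, hv⟩
      · rintro ⟨b, hb, hbX, hv⟩
        exact ⟨hv, b, hb, hbX⟩
    rw [h1, card_biUnion]
    · rw [card_filter]
      apply sum_congr rfl
      intro b hb
      exact hX.num b hb i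
    · intro b hb b' hb' hne
      exact (hX.dis b hb b' hb' hne).mono (filter_subset _ _) (filter_subset _ _)
  have hwr : (wr F (C i)).card + (if Odd (pt p i).card then O.card else 0) =
      (if Odd (pt p i).card then (C i).card else O.card) := by
    have hpar : ∀ b ∈ C i, (Odd (univ \ us F b).card ↔ ¬ (Odd (pt p i).card ↔ b ∈ O)) := by
      intro b hb
      have h1 := odd_free hR.cv hP.CF hb (hR.mts.inv b (hccR i hb))
      have h2 : b ∈ O ↔ ∃ v, p v = i ∧ M b v ≠ v := by
        rw [hO, mem_filter]
        exact ⟨fun hh => hh.2, fun hh => ⟨hb, hh⟩⟩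
      rw [h2, Nat.odd_iff, Nat.odd_iff]
      split_ifs at h1 with hh
      · simp only [hh, iff_true]
        omega
      · simp only [hh, iff_false]
        omega
    by_cases hodd : Odd (pt p i).card
    · rw [if_pos hodd, if_pos hodd]
      have h1 : wr F (C i) = C i \ O := by
        ext b
        simp only [wr, mem_filter, mem_sdiff]
        constructor
        · rintro ⟨hb, hb2⟩
          refine ⟨hb, ?_⟩
          have := (hpar b hb).mp hb2
          intro hbO
          exact this ⟨fun _ => hbO, fun _ => hodd⟩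
        · rintro ⟨hb, hb2⟩
          exact ⟨hb, (hpar b hb).mpr (fun hh => hb2 (hh.mp hodd))⟩
      rw [h1]
      exact card_sdiff_add_card_eq_card hOC
    · rw [if_neg hodd, if_neg hodd]
      have h1 : wr F (C i) = O := by
        ext b
        constructor
        · intro hb
          rw [wr, mem_filter] at hb
          have := (hpar b hb.1).mp hb.2
          by_contra hbO
          exact this ⟨fun h2 => absurd h2 hodd, fun h2 => absurd h2 hbO⟩
        · intro hb
          rw [wr, mem_filter]
          exact ⟨hOC hb, (hpar b (hOC hb)).mpr (fun hh => hodd (hh.mpr hb))⟩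
      rw [h1, add_zero]
  have hle := hT.le i
  -- the sizes
  have hn := nn_add_nb' G v0
  have hd0 := hL.deg v0
  have hi0 := hL.inn v0
  have hF0 := hL.Fx v0
  have hAc : ∀ j, (pt p j).card ≤ 2 * s ∧ 2 * s ≤ (pt p j).card + 2 * x := by
    intro j
    have h1 := pt_card p a j
    have h2 := hL.cs j false
    have h3 := hL.cs j true
    omega
  have hVc : Fintype.card V = (pt p 0).card + (pt p 1).card + (pt p 2).card := by
    have h1 : (univ : Finset V) = pt p 0 ∪ pt p 1 ∪ pt p 2 := by
      ext v
      simp only [mem_univ, mem_union, pt, mem_filter, true_and, true_iff]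
      generalize p v = j
      fin_cases j <;> simp
    have h2 : Disjoint (pt p 0) (pt p 1) := by
      rw [disjoint_left]
      intro v hv hw
      simp only [pt, mem_filter, mem_univ, true_and] at hv hw
      rw [hv] at hw
      exact absurd hw (by decide)
    have h3 : Disjoint (pt p 0 ∪ pt p 1) (pt p 2) := by
      rw [disjoint_left]
      intro v hv hw
      simp only [pt, mem_filter, mem_univ, true_and, mem_union] at hv hw
      rw [hw] at hv
      rcases hv with hv | hv <;> exact absurd hv (by decide)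
    rw [← card_univ, h1, card_union_of_disjoint h3, card_union_of_disjoint h2]
  have hA0 := hAc 0
  have hA1 := hAc 1
  have hA2 := hAc 2
  have hAi := hAc i
  have hcl := hP.cl i
  have hcb := hP.cb i
  have hq1 := hP.q1
  have hq2 := hP.q3
  have hWle : W.card ≤ Q1.card + Q2.card := by
    rw [hWc]
    exact (card_filter_le _ _).trans (card_union_le _ _)
  have hx1 := hL.x1
  have hxd := hL.xd
  have hhd := hL.hd
  have hdh := hL.dh
  obtain ⟨t, ht1, ht2⟩ := hF (ig G d p M i) (pt p i) (C i) O st W
    (fun v w hvw => ⟨(hpt v).mpr hvw.2.1, (hpt w).mpr hvw.2.2.1⟩) (filter_subset _ _) hOC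
    (fun b hb => (hpt _).mpr (hst1 b hb).1)
    (by
      intro b hb b' hb' hbb
      have h1 := hst1 b hb
      have h2 := hst1 b' hb'
      rw [← hbb] at h2
      exact hR.cv.sta i b (hOC hb) b' (hOC hb') (st b) h1.1 h1.2 h2.2)
    (by
      intro v hv
      rw [hpt] at hv
      have h1 := lst_deg G d x y h s F p a C0 C Q1 Q2 su sv e1 e2 N M τ X hL hP hX hR i v hv
      have h2 : v ∈ O.image st ↔ ∃ b ∈ C i, M b v ≠ v := by
        rw [mem_image]
        constructor
        · rintro ⟨b, hb, rfl⟩
          exact ⟨b, hOC hb, (hst1 b hb).2⟩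
        · rintro ⟨b, hb, hbv⟩
          exact ⟨b, hst2 b hb v hv hbv⟩
      have h3 : v ∈ W ↔ ∃ b ∈ Q1 ∪ Q2, v ∈ X b := by
        rw [hW, mem_filter, hpt]
        exact ⟨fun hh => hh.2, fun hh => ⟨hv, hh⟩⟩
      simp only [h2, h3]
      exact h1)
    (by omega)
    (by
      intro hev
      have : ¬ Odd (pt p i).card := by
        rw [Nat.not_odd_iff_even]
        exact hev
      rw [if_neg this, if_neg this] at hwr
      omega)
    (by
      intro hod
      rw [if_pos hod, if_pos hod] at hwr
      omega)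
  refine ⟨t, ht1, ?_⟩
  intro b hb v hv hbv w hvw
  obtain ⟨h1, h2⟩ := hst2 b hb v hv hbv
  have := ht2 b h1 w (by rw [h2]; exact hvw)
  rwa [h2] at this

theorem stmt_LST (hF : Stmt_FINR.{u}) : Stmt_LST.{u} := by
  intro V _ G d x y h s F p a C0 C Q1 Q2 su sv e1 e2 N M τ X hL hP hT hX hR
  by_cases hne : Nonempty V
  swap
  · rw [not_nonempty_iff] at hne
    exact ⟨fun _ _ => 0, fun v => hne.elim v, fun v => hne.elim v, fun v => hne.elim v⟩
  have hpart := fun i => lst_part hF G d x y h s F p a C0 C Q1 Q2 su sv e1 e2 N M τ X hL hP hT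
    hX hR i
  choose t ht1 ht2 using hpart
  have hCR : ∀ j, C j ⊆ range (d + 2) := by
    intro j b hb
    rw [← hP.tot]
    have : b ∈ cc C := by
      unfold cc
      simp only [mem_union]
      fin_cases j
      · exact Or.inl (Or.inl hb)
      · exact Or.inl (Or.inr hb)
      · exact Or.inr hb
    exact mem_union_left _ (mem_union_left _ this)
  have hccC : ∀ b ∈ cc C, ∃ j, b ∈ C j := by
    intro b hb
    unfold cc at hb
    simp only [mem_union] at hb
    rcases hb with (hb | hb) | hb
    · exact ⟨0, hb⟩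
    · exact ⟨1, hb⟩
    · exact ⟨2, hb⟩
  -- coloured edges
  set B : V → V → Prop := fun v w => ∃ b ∈ range (d + 2), M b v = w with hB
  have hBs : ∀ v w, B v w ↔ B w v := by
    have h1 : ∀ v w, B v w → B w v := by
      rintro v w ⟨b, hb, rfl⟩
      exact ⟨b, hb, hR.mts.inv b hb v⟩
    exact fun v w => ⟨h1 v w, h1 w v⟩
  set c : V → V → ℕ := fun v w => if hh : B v w then hh.choose else 0 with hc
  have hc1 : ∀ v w, B v w → c v w ∈ range (d + 2) ∧ M (c v w) v = w := by
    intro v w hh
    simp only [hc, dif_pos hh]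
    exact hh.choose_spec
  have huniq : ∀ v w, v ≠ w → ∀ b ∈ range (d + 2), ∀ b' ∈ range (d + 2), M b v = w →
      M b' v = w → b = b' := by
    intro v w hvw b hb b' hb' h1 h2
    by_contra hne
    exact hR.mts.dis b hb b' hb' hne v (by rw [h1]; exact hvw.symm) (by rw [h1, h2])
  have hnF : ∀ v, ∀ b ∈ range (d + 2), M b v ≠ v → b ∉ F v := by
    intro v b hb hbv hbF
    by_cases hcc : b ∈ cc C
    · obtain ⟨j, hj⟩ := hccC b hcc
      by_cases hji : p v = j
      · subst hji
        exact disjoint_left.mp (hP.CF v) hbF hj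
      · exact hbv ((hR.cv.cov j b hj v hji).mpr hbF)
    · exact hbv ((hR.cov b (mem_sdiff.mpr ⟨hb, hcc⟩) v).mpr (Or.inl hbF))
  have hig : ∀ v w, G.Adj v w → ¬ B v w → p v = p w ∧ (ig G d p M (p v)).Adj v w := by
    intro v w hvw hh
    have h1 : p v = p w := by
      by_contra hne
      exact hh (hR.all v w hvw hne)
    refine ⟨h1, hvw, rfl, h1.symm, ?_⟩
    intro b hb
    refine ⟨fun h2 => hh ⟨b, hb, h2⟩, fun h2 => hh ((hBs v w).mpr ⟨b, hb, h2⟩)⟩
  refine ⟨fun v w => if v = w then 0 else if B v w then c v w else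
    if p v = p w then t (p v) v w else 0, ?_, ?_, ?_⟩
  · intro v w
    by_cases hvw : v = w
    · subst hvw
      rfl
    · have hwv : ¬ w = v := fun hh => hvw hh.symm
      simp only [if_neg hvw, if_neg hwv, hBs w v]
      by_cases hb : B v w
      · rw [if_pos hb, if_pos hb]
        have h1 := hc1 v w hb
        have h2 := hc1 w v ((hBs v w).mp hb)
        apply huniq v w hvw _ h1.1 _ h2.1 h1.2
        have := congrArg (M (c w v)) h2.2
        rw [hR.mts.inv _ h2.1] at this
        exact this.symm
      · rw [if_neg hb, if_neg hb]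
        by_cases hp : p v = p w
        · rw [if_pos hp, if_pos hp.symm, hp]
          exact (ht1 (p w)).sym v w
        · rw [if_neg hp, if_neg (fun hh => hp hh.symm)]
  · intro v w hvw
    simp only [if_neg hvw.ne]
    by_cases hb : B v w
    · rw [if_pos hb]
      have h1 := hc1 v w hb
      refine ⟨mem_range.mp h1.1, hnF v _ h1.1 ?_⟩
      rw [h1.2]
      exact hvw.ne'
    · rw [if_neg hb]
      obtain ⟨h1, h2⟩ := hig v w hvw hb
      rw [if_pos h1]
      have h3 := (ht1 (p v)).mem v w h2
      exact ⟨mem_range.mp (hCR _ h3), fun h4 => disjoint_left.mp (hP.CF v) h4 h3⟩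
  · intro v w hw w' hw' heq
    simp only [nb, coe_filter, mem_univ, true_and, Set.mem_ofPred_eq] at hw hw'
    simp only [if_neg hw.ne, if_neg hw'.ne] at heq
    -- a coloured and an inner edge
    have key : ∀ w w', G.Adj v w → G.Adj v w' → B v w → ¬ B v w' →
        c v w ≠ (if p v = p w' then t (p v) v w' else 0) := by
      intro w w' hw hw' hb hb' heq
      obtain ⟨h1, h2⟩ := hig v w' hw' hb'
      rw [if_pos h1] at heq
      have h3 := hc1 v w hb
      have h4 := (ht1 (p v)).mem v w' h2
      rw [← heq] at h4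
      exact ht2 (p v) (c v w) h4 v rfl (by rw [h3.2]; exact hw.ne') w' h2 heq.symm
    by_cases hb : B v w
    · by_cases hb' : B v w'
      · rw [if_pos hb, if_pos hb'] at heq
        rw [← (hc1 v w hb).2, ← (hc1 v w' hb').2, heq]
      · rw [if_pos hb, if_neg hb'] at heq
        exact absurd heq (key w w' hw hw' hb hb')
    · by_cases hb' : B v w'
      · rw [if_neg hb, if_pos hb'] at heq
        exact absurd heq.symm (key w' w hw' hw hb' hb)
      · rw [if_neg hb, if_neg hb'] at heq
        obtain ⟨h1, h2⟩ := hig v w hw hb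
        obtain ⟨h1', h2'⟩ := hig v w' hw' hb'
        rw [if_pos h1, if_pos h1'] at heq
        exact (ht1 (p v)).inj v (by simpa [nb] using h2) (by simpa [nb] using h2') heq

end Pool.Agent.Work.MP_db9399_lt.helper52
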