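import Mathlib
import Pool.Agent.Work.MP_db9399_lt.Interface
import Pool.Agent.Work.MP_db9399_lt_helper52.Common

/-!
# MP_db9399, THEOREM LT, block PARI (helper52)
-/

set_option autoImplicit false

namespace Pool.Agent.Work.MP_db9399_lt.helper52

open Finset Classical
open Pool.Agent.Work.MP_db9399_all (nb)
open Pool.Agent.Work.MP_db9399_nc (nn PEC Mts)

universe u

/-- sum over the part `i` of a count of partners is a count of pairs -/
theorem sum_part {V : Type u} [Fintype V] (p : V → Fin 3) (i : Fin 3) (r : V → V → Prop) :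
    ∑ v ∈ pt p i, (univ.filter (fun w => r v w)).card =
      (univ.filter (fun q : V × V => p q.1 = i ∧ r q.1 q.2)).card := by
  rw [card_filter, Fintype.sum_prod_type, pt, sum_filter]
  apply sum_congr rfl
  intro v _
  split_ifs with hv
  · simp only [hv, true_and]
    rw [card_filter]
  · simp only [hv, false_and, if_false, sum_const_zero]

/-- double counting on the part `i` -/
theorem sum_swap {V : Type u} [Fintype V] (p : V → Fin 3) (i : Fin 3) (B : Finset ℕ)
    (r : V → ℕ → Prop) :
    ∑ v ∈ pt p i, (B.filter (fun b => r v b)).card =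
      ∑ b ∈ B, ((pt p i).filter (fun v => r v b)).card := by
  simp only [card_filter]
  exact sum_comm

theorem inner_even {V : Type u} [Fintype V] (G : SimpleGraph V) (p : V → Fin 3) (i : Fin 3) :
    Even (∑ v ∈ pt p i, (univ.filter (fun w => G.Adj v w ∧ p w = i)).card) := by
  have w1 : ∑ v ∈ pt p i, (univ.filter (fun w => G.Adj v w ∧ p w = i)).card =
      (univ.filter (fun q : V × V => p q.1 = i ∧ (G.Adj q.1 q.2 ∧ p q.2 = i))).card := by
    have := sum_part p i (fun v w => G.Adj v w ∧ p w = i)
    convert this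
  rw [w1]
  apply even_of_invol _ Prod.swap
  · rintro ⟨v, w⟩ hq
    simp only [mem_filter, mem_univ, true_and, Prod.swap] at hq ⊢
    exact ⟨hq.2.2, hq.2.1.symm, hq.1⟩
  · rintro ⟨v, w⟩ _
    rfl
  · rintro ⟨v, w⟩ hq heq
    simp only [mem_filter, mem_univ, true_and, Prod.swap, Prod.mk.injEq] at hq heq
    exact hq.2.1.ne heq.2

theorem adj_count {V : Type u} [Fintype V] {G : SimpleGraph V} {F : V → Finset ℕ}
    {p : V → Fin 3} {C : Fin 3 → Finset ℕ} {h : ℕ} {su sv e1 e2 : ℕ → V}
    (hS : SPD G F p C h su sv e1 e2) {i : Fin 3} (hi : i ≠ 0) :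
    Even (∑ v ∈ pt p i, (univ.filter (fun w => isA h e1 e2 v w)).card) := by
  set Ks : Finset ℕ := (range (4 * h)).filter (fun k => p (e2 k) = i) with hKs
  have hK : Ks.card = 2 * h := by
    have hcases : i = 1 ∨ i = 2 := by
      fin_cases i
      · exact absurd rfl hi
      · exact Or.inl rfl
      · exact Or.inr rfl
    rcases hcases with rfl | rfl
    · have : Ks = range (2 * h) := by
        ext k
        simp only [hKs, mem_filter, mem_range]
        constructor
        · rintro ⟨hk, hk2⟩
          by_contra hlt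
          have := hS.p3 k (by omega) hk
          rw [this] at hk2
          exact absurd hk2 (by decide)
        · intro hk
          exact ⟨by omega, hS.p2 k hk⟩
      rw [this, card_range]
    · have : Ks = Ico (2 * h) (4 * h) := by
        ext k
        simp only [hKs, mem_filter, mem_range, mem_Ico]
        constructor
        · rintro ⟨hk, hk2⟩
          refine ⟨?_, hk⟩
          by_contra hlt
          have := hS.p2 k (by omega)
          rw [this] at hk2
          exact absurd hk2 (by decide)
        · rintro ⟨hk, hk2⟩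
          exact ⟨hk2, hS.p3 k hk hk2⟩
      rw [this, Nat.card_Ico]
      omega
  have h1 : ∀ v ∈ pt p i, (univ.filter (fun w => isA h e1 e2 v w)).card =
      (Ks.filter (fun k => e2 k = v)).card := by
    intro v hv
    simp only [pt, mem_filter, mem_univ, true_and] at hv
    have h2 : univ.filter (fun w => isA h e1 e2 v w) =
        (Ks.filter (fun k => e2 k = v)).image e1 := by
      ext w
      simp only [mem_filter, mem_univ, true_and, mem_image, isA, hKs, mem_range]
      constructor
      · rintro ⟨k, hk, ⟨ha, _⟩ | ⟨ha, hb⟩⟩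
        · have := hS.p1 k hk
          rw [ha, hv] at this
          exact absurd this hi
        · exact ⟨k, ⟨⟨hk, by rw [hb]; exact hv⟩, hb⟩, ha⟩
      · rintro ⟨k, ⟨⟨hk, _⟩, hb⟩, ha⟩
        exact ⟨k, hk, Or.inr ⟨ha, hb⟩⟩
    rw [h2, card_image_of_injOn]
    intro k hk k' hk' hkk
    simp only [hKs, coe_filter, mem_filter, mem_range, Set.mem_ofPred_eq] at hk hk'
    exact hS.i1 (by simpa using hk.1.1) (by simpa using hk'.1.1) hkk
  have h3 : ∑ v ∈ pt p i, (univ.filter (fun w => isA h e1 e2 v w)).card = Ks.card := by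
    rw [sum_congr rfl h1]
    have h4 : ∑ v ∈ pt p i, (Ks.filter (fun k => e2 k = v)).card =
        ∑ k ∈ Ks, ((pt p i).filter (fun v => e2 k = v)).card := by
      simp only [card_filter]
      exact sum_comm
    rw [h4, card_eq_sum_ones]
    apply sum_congr rfl
    intro k hk
    rw [card_eq_one]
    refine ⟨e2 k, ?_⟩
    ext v
    simp only [mem_filter, mem_singleton]
    constructor
    · rintro ⟨_, hh⟩
      exact hh.symm
    · rintro rfl
      refine ⟨?_, rfl⟩
      simp only [pt, mem_filter, mem_univ, true_and]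
      exact (mem_filter.mp hk).2
  rw [h3, hK]
  exact even_two_mul h

theorem stmt_PARI : Stmt_PARI.{u} := by
  intro V _ G d x y h s F p a C0 C Q1 Q2 su sv e1 e2 N M K τ X hL hP hT hX hS hQ hKX i hi
  have htot : ∀ b, b ∈ range (d + 2) ↔ b ∈ cc C ∪ Q1 ∨ b ∈ Q2 := by
    intro b
    rw [← hP.tot, mem_union]
  have hCcc : ∀ j, ∀ b ∈ C j, b ∈ cc C := by
    intro j b hb
    unfold cc
    simp only [mem_union]
    fin_cases j
    · exact Or.inl (Or.inl hb)
    · exact Or.inl (Or.inr hb)
    · exact Or.inr hb
  have hccC : ∀ b ∈ cc C, ∃ j, b ∈ C j := by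
    intro b hb
    unfold cc at hb
    simp only [mem_union] at hb
    rcases hb with (hb | hb) | hb
    · exact ⟨0, hb⟩
    · exact ⟨1, hb⟩
    · exact ⟨2, hb⟩
  set B : Finset ℕ := cc C ∪ Q1 with hB
  have hBQ : Disjoint B Q2 := by
    rw [disjoint_left]
    intro b hb hb2
    rcases mem_union.mp hb with hb | hb
    · obtain ⟨j, hj⟩ := hccC b hb
      exact disjoint_left.mp (hP.dC2 j) hj hb2
    · exact disjoint_left.mp hP.d12 hb hb2
  have hmpt : ∀ v, v ∈ pt p i ↔ p v = i := by
    intro v
    simp [pt]
  -- the neighbours outside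
  have e1' : ∀ v ∈ pt p i, (nb G v).card = (univ.filter (fun w => G.Adj v w ∧ p w = i)).card +
      (B.filter (fun b => M b v ≠ v ∧ p (M b v) ≠ i)).card +
      (Q2.filter (fun b => K b v ≠ v)).card + (univ.filter (fun w => isA h e1 e2 v w)).card := by
    intro v hv
    rw [hmpt] at hv
    have hadjA : ∀ w, isA h e1 e2 v w → G.Adj v w ∧ p w ≠ i := by
      rintro w ⟨k, hk, ⟨rfl, rfl⟩ | ⟨rfl, rfl⟩⟩
      · exact absurd ((hP.spd.p1 k hk).symm.trans hv).symm hi
      · refine ⟨(hP.spd.ea k hk).symm, ?_⟩
        rw [hP.spd.p1 k hk]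
        exact fun hh => hi hh.symm
    have hKadj : ∀ b ∈ Q2, K b v ≠ v → (lg G h p B e1 e2 M).Adj v (K b v) :=
      fun b hb hbv => hQ.mts.adj b hb v hbv
    have h1 : nb G v = ((univ.filter (fun w => G.Adj v w ∧ p w = i)) ∪
        (B.filter (fun b => M b v ≠ v ∧ p (M b v) ≠ i)).image (fun b => M b v)) ∪
        ((Q2.filter (fun b => K b v ≠ v)).image (fun b => K b v) ∪
        (univ.filter (fun w => isA h e1 e2 v w))) := by
      ext w
      simp only [nb, mem_filter, mem_univ, true_and, mem_union (s := _ ∪ _) (t := _ ∪ _),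
        mem_union (s := filter _ _) (t := image _ _), mem_union (s := image _ _)
        (t := filter _ _), mem_image]
      constructor
      · intro hw
        by_cases hwi : p w = i
        · exact Or.inl (Or.inl ⟨hw, hwi⟩)
        by_cases hA : isA h e1 e2 v w
        · exact Or.inr (Or.inr hA)
        by_cases hM : ∃ b ∈ B, M b v = w
        · obtain ⟨b, hb, hbw⟩ := hM
          refine Or.inl (Or.inr ⟨b, ⟨hb, ?_, ?_⟩, hbw⟩)
          · rw [hbw]
            exact hw.ne'
          · rw [hbw]
            exact hwi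
        · have hlg : (lg G h p B e1 e2 M).Adj v w := by
            refine ⟨hw, by rw [hv]; exact hwi, hA, ?_⟩
            intro b hb
            refine ⟨fun h2 => hM ⟨b, hb, h2⟩, fun h2 => hM ⟨b, hb, ?_⟩⟩
            have := congrArg (M b) h2
            rw [hS.mts.inv b hb] at this
            exact this.symm
          obtain ⟨b, hb, hbw⟩ := hQ.all v w hlg
          refine Or.inr (Or.inl ⟨b, ⟨hb, ?_⟩, hbw⟩)
          rw [hbw]
          exact hw.ne'
      · rintro ((hw | ⟨b, ⟨hb, hbv, _⟩, rfl⟩) | (⟨b, ⟨hb, hbv⟩, rfl⟩ | hA))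
        · exact hw.1
        · exact hS.mts.adj b hb v hbv
        · exact (hKadj b hb hbv).1
        · exact (hadjA w hA).1
    have d1 : Disjoint (univ.filter (fun w => G.Adj v w ∧ p w = i))
        ((B.filter (fun b => M b v ≠ v ∧ p (M b v) ≠ i)).image (fun b => M b v)) := by
      rw [disjoint_left]
      intro w hw hw2
      simp only [mem_filter, mem_univ, true_and, mem_image] at hw hw2
      obtain ⟨b, ⟨_, _, hb⟩, rfl⟩ := hw2
      exact hb hw.2
    have d2 : Disjoint ((Q2.filter (fun b => K b v ≠ v)).image (fun b => K b v))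
        (univ.filter (fun w => isA h e1 e2 v w)) := by
      rw [disjoint_left]
      intro w hw hw2
      simp only [mem_filter, mem_univ, true_and, mem_image] at hw hw2
      obtain ⟨b, ⟨hb, hbv⟩, rfl⟩ := hw
      exact (hKadj b hb hbv).2.2.1 hw2
    have d3 : Disjoint ((univ.filter (fun w => G.Adj v w ∧ p w = i)) ∪
        (B.filter (fun b => M b v ≠ v ∧ p (M b v) ≠ i)).image (fun b => M b v))
        ((Q2.filter (fun b => K b v ≠ v)).image (fun b => K b v) ∪
        (univ.filter (fun w => isA h e1 e2 v w))) := by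
      rw [disjoint_left]
      intro w hw hw2
      rcases mem_union.mp hw with hw | hw
      · have hwi := (mem_filter.mp hw).2.2
        rcases mem_union.mp hw2 with hw2 | hw2
        · obtain ⟨b, hb, rfl⟩ := mem_image.mp hw2
          obtain ⟨hb, hbv⟩ := mem_filter.mp hb
          apply (hKadj b hb hbv).2.1
          rw [hwi, hv]
        · exact (hadjA w (mem_filter.mp hw2).2).2 hwi
      · obtain ⟨b, hb, rfl⟩ := mem_image.mp hw
        obtain ⟨hb, hbv, _⟩ := mem_filter.mp hb
        rcases mem_union.mp hw2 with hw2 | hw2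
        · obtain ⟨b', hb', hbb⟩ := mem_image.mp hw2
          obtain ⟨hb', hbv'⟩ := mem_filter.mp hb'
          have := (hKadj b' hb' hbv').2.2.2 b hb
          exact this.1 hbb.symm
        · exact hS.nA b hb v hbv (mem_filter.mp hw2).2
    rw [h1, card_union_of_disjoint d3, card_union_of_disjoint d1, card_union_of_disjoint d2,
      card_image_of_injOn, card_image_of_injOn]
    · ring
    · intro b hb b' hb' hbb
      simp only [coe_filter, Set.mem_ofPred_eq] at hb hb'
      by_contra hne
      exact hQ.mts.dis b hb.1 b' hb'.1 hne v hb.2 hbb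
    · intro b hb b' hb' hbb
      simp only [coe_filter, Set.mem_ofPred_eq] at hb hb'
      by_contra hne
      exact hS.mts.dis b hb.1 b' hb'.1 hne v hb.2.1 hbb
  have s1 : ∑ v ∈ pt p i, (nb G v).card =
      ∑ v ∈ pt p i, (univ.filter (fun w => G.Adj v w ∧ p w = i)).card +
      ∑ b ∈ B, ((pt p i).filter (fun v => M b v ≠ v ∧ p (M b v) ≠ i)).card +
      ∑ b ∈ Q2, ((pt p i).filter (fun v => K b v ≠ v)).card +
      ∑ v ∈ pt p i, (univ.filter (fun w => isA h e1 e2 v w)).card := by
    have w1 : ∑ v ∈ pt p i, (B.filter (fun b => M b v ≠ v ∧ p (M b v) ≠ i)).card =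
        ∑ b ∈ B, ((pt p i).filter (fun v => M b v ≠ v ∧ p (M b v) ≠ i)).card := by
      simp only [card_filter]
      exact sum_comm
    have w2 : ∑ v ∈ pt p i, (Q2.filter (fun b => K b v ≠ v)).card =
        ∑ b ∈ Q2, ((pt p i).filter (fun v => K b v ≠ v)).card := by
      simp only [card_filter]
      exact sum_comm
    rw [sum_congr rfl e1', sum_add_distrib, sum_add_distrib, sum_add_distrib, w1, w2]
  have s2 : ∑ v ∈ pt p i, (nb G v).card + (pt p i).card =
      ∑ b ∈ range (d + 2), ((pt p i).filter (fun v => b ∉ F v)).card := by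
    have w1 : ∑ v ∈ pt p i, ((range (d + 2)).filter (fun b => b ∉ F v)).card =
        ∑ b ∈ range (d + 2), ((pt p i).filter (fun v => b ∉ F v)).card := by
      simp only [card_filter]
      exact sum_comm
    rw [← w1, card_eq_sum_ones, ← sum_add_distrib]
    apply sum_congr rfl
    intro v _
    have h1 := hL.deg v
    have h2 : (range (d + 2)).filter (fun b => b ∉ F v) = range (d + 2) \ F v := by
      ext b
      simp [mem_sdiff]
    have h3 : F v ⊆ range (d + 2) := fun b hb => mem_range.mpr (hL.Flt v b hb)
    rw [h2, card_sdiff_of_subset h3, card_range]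
    omega
  -- modulo two
  have z1 : ∀ n : ℕ, Even n → (n : ZMod 2) = 0 := fun n hn =>
    (ZMod.natCast_eq_zero_iff_even).mpr hn
  have z2 : ∀ z : ZMod 2, z + z = 0 := by decide
  have m1 : ∀ b ∈ B, (((pt p i).filter (fun v => M b v ≠ v ∧ p (M b v) ≠ i)).card : ZMod 2) =
      (((pt p i).filter (fun v => M b v ≠ v)).card : ZMod 2) := by
    intro b hb
    have h1 : ((pt p i).filter (fun v => M b v ≠ v)).card =
        ((pt p i).filter (fun v => M b v ≠ v ∧ p (M b v) ≠ i)).card +
        ((pt p i).filter (fun v => M b v ≠ v ∧ p (M b v) = i)).card := by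
      rw [← card_union_of_disjoint]
      · congr 1
        ext v
        simp only [mem_filter, mem_union]
        by_cases hh : p (M b v) = i <;> simp [hh]
      · rw [disjoint_left]
        intro v hv hw
        exact (mem_filter.mp hv).2.2 (mem_filter.mp hw).2.2
    have h2 : Even ((pt p i).filter (fun v => M b v ≠ v ∧ p (M b v) = i)).card := by
      apply even_of_invol _ (M b)
      · intro v hv
        simp only [mem_filter, hmpt] at hv ⊢
        refine ⟨hv.2.2, ?_, ?_⟩
        · rw [hS.mts.inv b hb]
          exact fun hh => hv.2.1 hh.symm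
        · rw [hS.mts.inv b hb]
          exact hv.1
      · intro v _
        exact hS.mts.inv b hb v
      · intro v hv
        exact (mem_filter.mp hv).2.1
    rw [h1, Nat.cast_add, z1 _ h2, add_zero]
  have m2 : ∀ b ∈ B, (((pt p i).filter (fun v => b ∉ F v)).card : ZMod 2) +
      (((pt p i).filter (fun v => M b v ≠ v)).card : ZMod 2) =
      (if b ∈ wr F (C i) then 1 else 0) + (if b ∈ Q1 ∧ τ b i then 1 else 0) := by
    intro b hb
    rcases mem_union.mp hb with hcc | hq
    · have hnq : b ∉ Q1 := by
        obtain ⟨j, hj⟩ := hccC b hcc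
        exact fun hh => disjoint_left.mp (hP.dC1 j) hj hh
      rw [if_neg (c := b ∈ Q1 ∧ τ b i) (fun hh => hnq hh.1), add_zero]
      by_cases hbi : b ∈ C i
      · have h1 := odd_free hS.cv hP.CF hbi (hS.mts.inv b hb)
        have h2 : (pt p i).filter (fun v => b ∉ F v) = pt p i := by
          rw [filter_eq_self]
          intro v hv hbF
          rw [hmpt] at hv
          have := hP.CF v
          rw [hv] at this
          exact disjoint_left.mp this hbF hbi
        have h3 : ((pt p i).filter (fun v => M b v ≠ v)).card =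
            (if ∃ v, p v = i ∧ M b v ≠ v then 1 else 0) := by
          split_ifs with hh
          · obtain ⟨v, hv⟩ := hh
            rw [card_eq_one]
            refine ⟨v, ?_⟩
            ext w
            simp only [mem_filter, hmpt, mem_singleton]
            constructor
            · intro hw
              exact hS.cv.one i b hbi w v hw.1 hv.1 hw.2 hv.2
            · rintro rfl
              exact hv
          · rw [card_eq_zero, filter_eq_empty_iff]
            intro v hv hbv
            exact hh ⟨v, (hmpt v).mp hv, hbv⟩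
        rw [h2, ← Nat.cast_add, h3]
        have h4 : b ∈ wr F (C i) ↔ Odd (univ \ us F b).card := by
          rw [wr, mem_filter]
          exact ⟨fun hh => hh.2, fun hh => ⟨hbi, hh⟩⟩
        have h5 : (((pt p i).card + (if ∃ v, p v = i ∧ M b v ≠ v then 1 else 0) : ℕ) : ZMod 2) =
            ((univ \ us F b).card : ZMod 2) := by
          rw [ZMod.natCast_eq_natCast_iff]
          exact h1.symm
        rw [h5]
        by_cases hodd : Odd (univ \ us F b).card
        · rw [if_pos (h4.mpr hodd)]
          exact (ZMod.natCast_eq_one_iff_odd).mpr hodd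
        · rw [if_neg (fun hh => hodd (h4.mp hh))]
          exact z1 _ (Nat.not_odd_iff_even.mp hodd)
      · obtain ⟨j, hj⟩ := hccC b hcc
        have hji : i ≠ j := by
          rintro rfl
          exact hbi hj
        have h2 : (pt p i).filter (fun v => b ∉ F v) =
            (pt p i).filter (fun v => M b v ≠ v) := by
          apply filter_congr
          intro v hv
          rw [hmpt] at hv
          have := hS.cv.cov j b hj v (by rw [hv]; exact hji)
          exact (not_congr this).symm
        have h3 : b ∉ wr F (C i) := by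
          rw [wr, mem_filter]
          exact fun hh => hbi hh.1
        rw [h2, if_neg h3]
        exact z2 _
    · have h3 : b ∉ wr F (C i) := by
        rw [wr, mem_filter]
        exact fun hh => disjoint_left.mp (hP.dC1 i) hh.1 hq
      rw [if_neg h3, zero_add]
      have h1 : ((pt p i).filter (fun v => b ∉ F v)).card =
          ((pt p i).filter (fun v => M b v ≠ v)).card + (if τ b i then 1 else 0) := by
        rw [← hX.num b (mem_union_left _ hq) i, ← card_union_of_disjoint]
        · congr 1
          ext v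
          have hcov := hS.covQ b hq v
          simp only [mem_filter, mem_union, hmpt]
          constructor
          · rintro ⟨hv, hbF⟩
            by_cases hvX : v ∈ X b
            · exact Or.inr ⟨hvX, hv⟩
            · refine Or.inl ⟨hv, ?_⟩
              intro hh
              rcases hcov.mp hh with h4 | h4
              · exact hbF h4
              · exact hvX h4
          · rintro (⟨hv, hbv⟩ | ⟨hvX, hv⟩)
            · exact ⟨hv, fun hh => hbv (hcov.mpr (Or.inl hh))⟩
            · exact ⟨hv, hX.XF b (mem_union_left _ hq) v hvX⟩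
        · rw [disjoint_left]
          intro v hv hw
          exact (mem_filter.mp hv).2 ((hS.covQ b hq v).mpr (Or.inr (mem_filter.mp hw).1))
      rw [h1, Nat.cast_add]
      simp only [hq, true_and]
      have h4 : ((if τ b i then 1 else 0 : ℕ) : ZMod 2) = (if τ b i then 1 else 0) := by
        split_ifs <;> simp
      rw [h4]
      have h5 : ∀ z z' : ZMod 2, z + z' + z = z' := by decide
      exact h5 _ _
  have m3 : ∀ b ∈ Q2, ((pt p i).filter (fun v => b ∉ F v)).card =
      (univ.filter (fun v => p v = i ∧ b ∉ F v ∧ v ∉ X b ∧ K b v = v)).card +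
      (if τ b i then 1 else 0) + ((pt p i).filter (fun v => K b v ≠ v)).card := by
    intro b hb
    have hbQ : b ∈ Q1 ∪ Q2 := mem_union_right _ hb
    rw [← hX.num b hbQ i, ← card_union_of_disjoint, ← card_union_of_disjoint]
    · congr 1
      ext v
      simp only [mem_filter, mem_univ, true_and, mem_union, hmpt]
      constructor
      · rintro ⟨hv, hbF⟩
        by_cases hvX : v ∈ X b
        · exact Or.inl (Or.inr ⟨hvX, hv⟩)
        · by_cases hK : K b v = v
          · exact Or.inl (Or.inl ⟨hv, hbF, hvX, hK⟩)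
          · exact Or.inr ⟨hv, hK⟩
      · rintro ((⟨hv, hbF, _, _⟩ | ⟨hvX, hv⟩) | ⟨hv, hK⟩)
        · exact ⟨hv, hbF⟩
        · exact ⟨hv, hX.XF b hbQ v hvX⟩
        · exact ⟨hv, hQ.KF b hb v hK⟩
    · rw [disjoint_left]
      intro v hv hw
      obtain ⟨_, hw⟩ := mem_filter.mp hw
      rcases mem_union.mp hv with hv | hv
      · exact hw (mem_filter.mp hv).2.2.2.2
      · exact hw (hKX b hb v (mem_filter.mp hv).1)
    · rw [disjoint_left]
      intro v hv hw
      exact (mem_filter.mp hv).2.2.2.1 (mem_filter.mp hw).1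
  -- conclusion
  have hrange : ∑ b ∈ range (d + 2), ((pt p i).filter (fun v => b ∉ F v)).card =
      ∑ b ∈ B, ((pt p i).filter (fun v => b ∉ F v)).card +
      ∑ b ∈ Q2, ((pt p i).filter (fun v => b ∉ F v)).card := by
    rw [← sum_union hBQ]
    have : B ∪ Q2 = range (d + 2) := by rw [hB, hP.tot]
    rw [this]
  have t1 : ((∑ b ∈ B, ((pt p i).filter (fun v => b ∉ F v)).card : ℕ) : ZMod 2) +
      ((∑ b ∈ B, ((pt p i).filter (fun v => M b v ≠ v ∧ p (M b v) ≠ i)).card : ℕ) : ZMod 2) =
      ((wr F (C i)).card : ZMod 2) + ((Q1.filter (fun b => τ b i)).card : ZMod 2) := by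
    rw [Nat.cast_sum, Nat.cast_sum, ← sum_add_distrib]
    rw [sum_congr rfl (fun b hb => by rw [m1 b hb, m2 b hb]), sum_add_distrib]
    congr 1
    · rw [← sum_filter, sum_const, nsmul_eq_mul, mul_one]
      congr 2
      ext b
      simp only [mem_filter]
      constructor
      · exact fun hh => hh.2
      · intro hh
        exact ⟨mem_union_left _ (hCcc i b (mem_filter.mp hh).1), hh⟩
    · rw [← sum_filter, sum_const, nsmul_eq_mul, mul_one]
      congr 2
      ext b
      simp only [mem_filter]
      constructor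
      · exact fun hh => hh.2
      · intro hh
        exact ⟨mem_union_right _ hh.1, hh⟩
  have t2 : ∑ b ∈ Q2, ((pt p i).filter (fun v => b ∉ F v)).card =
      ∑ b ∈ Q2, (univ.filter (fun v => p v = i ∧ b ∉ F v ∧ v ∉ X b ∧ K b v = v)).card +
      (Q2.filter (fun b => τ b i)).card +
      ∑ b ∈ Q2, ((pt p i).filter (fun v => K b v ≠ v)).card := by
    rw [sum_congr rfl m3, sum_add_distrib, sum_add_distrib, card_filter]
  have t3 : ((Q1 ∪ Q2).filter (fun b => τ b i)).card =
      (Q1.filter (fun b => τ b i)).card + (Q2.filter (fun b => τ b i)).card := by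
    rw [filter_union, card_union_of_disjoint]
    exact disjoint_filter_filter hP.d12
  have hev := hT.ev i
  have hin := inner_even G p i
  have had := adj_count hP.spd hi
  rw [t3] at hev
  have k1 := z1 _ hev
  have k2 := z1 _ hin
  have k3 := z1 _ had
  have k4 := congrArg (fun n : ℕ => (n : ZMod 2)) s1
  have k5 := congrArg (fun n : ℕ => (n : ZMod 2)) s2
  have k6 := congrArg (fun n : ℕ => (n : ZMod 2)) hrange
  have k7 := congrArg (fun n : ℕ => (n : ZMod 2)) t2
  simp only [Nat.cast_add] at k1 k4 k5 k6 k7
  rw [← ZMod.natCast_eq_zero_iff_even]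
  rw [k2, k3] at k4
  rw [k6, k7, k4] at k5
  revert k1 k5 t1
  generalize ((∑ b ∈ Q2, (univ.filter
    (fun v => p v = i ∧ b ∉ F v ∧ v ∉ X b ∧ K b v = v)).card : ℕ) : ZMod 2) = z1
  generalize ((∑ b ∈ B, ((pt p i).filter (fun v => b ∉ F v)).card : ℕ) : ZMod 2) = z2
  generalize ((∑ b ∈ B, ((pt p i).filter
    (fun v => M b v ≠ v ∧ p (M b v) ≠ i)).card : ℕ) : ZMod 2) = z3
  generalize ((∑ b ∈ Q2, ((pt p i).filter (fun v => K b v ≠ v)).card : ℕ) : ZMod 2) = z4
  generalize ((wr F (C i)).card : ZMod 2) = z5
  generalize ((Q1.filter (fun b => τ b i)).card : ZMod 2) = z6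
  generalize ((Q2.filter (fun b => τ b i)).card : ZMod 2) = z7
  generalize ((pt p i).card : ZMod 2) = z8
  revert z1 z2 z3 z4 z5 z6 z7 z8
  decide

end Pool.Agent.Work.MP_db9399_lt.helper52
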